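import Pool.Agent.Q296.Balance

/-!
# Balancing unit vectors under a parity condition: at most `d + 1` directions

Q1 asks whether unit vectors `v_1, ..., v_n` of `ℝ^d`, `n ≢ d (mod 2)`, always have a signed sum of
norm at most `√(d - 1)`. Here this is proved for `n = d + 1` and, for all `n`, for all families
with at most `d + 1` different directions (lines).

Proof for `n = d + 1`. Let `G` be the Gram matrix. If all signed sums had norm greater than
`√(d - 1)`, the function `F(η) = 1 + ∑_{i < j} G_ij η_i η_j` would be positive on `{-1, 1}^n`, so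
`F / 2^n` would be a probability density with second moments `E η_i η_j = G_ij`, and `G` would be
positive definite; but its rank is at most `d < n`.
-/

set_option autoImplicit false

open Finset Pool.Agent.Q296.Balance

namespace Pool.Agent.Results.MP_1be6c9_co.FewDirections

lemma exists_dep {d : ℕ} (u : Fin (d + 1) → EuclideanSpace ℝ (Fin d)) :
    ∃ c : Fin (d + 1) → ℝ, c ≠ 0 ∧ ∑ i, c i • u i = 0 := by
  have h : ¬ LinearIndependent ℝ u := by
    intro h
    have := h.fintype_card_le_finrank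
    simp at this
  obtain ⟨g, hg, i, hi⟩ := Fintype.not_linearIndependent_iff.1 h
  exact ⟨g, fun h0 => hi (by rw [h0]; rfl), hg⟩

lemma few {d n : ℕ} (hpar : n % 2 ≠ d % 2) (u : Fin (d + 1) → EuclideanSpace ℝ (Fin d))
    (hu : ∀ j, ‖u j‖ = 1) (f : Fin n → Fin (d + 1)) (κ : Fin n → ℝ)
    (hκ : ∀ i, κ i = 1 ∨ κ i = -1) :
    ∃ η : Fin n → ℝ, (∀ i, η i = 1 ∨ η i = -1) ∧
      ‖∑ i, η i • κ i • u (f i)‖ ^ 2 ≤ (d : ℝ) - 1 := by
  classical
  -- signs in the fibres
  have hfib : ∀ j : Fin (d + 1), ∃ ε : Fin n → ℝ, (∀ i, ε i = 1 ∨ ε i = -1) ∧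
      ∑ i with f i = j, ε i = if Odd (Finset.card {i | f i = j}) then 1 else 0 :=
    fun j => exists_small_sum _
  choose ε hε1 hε2 using hfib
  set O : Finset (Fin (d + 1)) := {j | Odd (Finset.card {i | f i = j})} with hO
  let a : Fin (d + 1) → EuclideanSpace ℝ (Fin d) := fun j => if j ∈ O then u j else 0
  -- it is enough to balance `a`
  have hmain : ∀ e : Fin (d + 1) → Bool, ∃ η : Fin n → ℝ, (∀ i, η i = 1 ∨ η i = -1) ∧
      ∑ i, η i • κ i • u (f i) = ∑ j, sg (e j) • a j := by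
    intro e
    refine ⟨fun i => κ i * ε (f i) i * sg (e (f i)), ?_, ?_⟩
    · intro i
      rcases hκ i with h1 | h1 <;> rcases hε1 (f i) i with h2 | h2 <;>
        rcases sg_or (e (f i)) with h3 | h3 <;> simp only [h1, h2, h3] <;> norm_num
    · rw [← Finset.sum_fiberwise (s := Finset.univ) (g := f)]
      refine Finset.sum_congr rfl (fun j _ => ?_)
      have h1 : ∀ i ∈ ({i | f i = j} : Finset (Fin n)),
          (κ i * ε (f i) i * sg (e (f i))) • κ i • u (f i) = ε j i • (sg (e j) • u j) := by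
        intro i hi
        rw [Finset.mem_filter] at hi
        rw [hi.2, smul_smul, smul_smul]
        congr 1
        rcases hκ i with h | h <;> rw [h] <;> ring
      rw [Finset.sum_congr rfl h1, ← Finset.sum_smul, hε2 j]
      by_cases hj : Odd (Finset.card ({i | f i = j} : Finset (Fin n)))
      · rw [if_pos hj, one_smul]
        have : j ∈ O := by rw [hO, Finset.mem_filter]; exact ⟨Finset.mem_univ _, hj⟩
        simp [a, this]
      · rw [if_neg hj, zero_smul]
        have : j ∉ O := by rw [hO, Finset.mem_filter]; exact fun h => hj h.2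
        simp [a, this]
  have hnorm : ∑ j, ‖a j‖ ^ 2 = (O.card : ℝ) := by
    have h1 : ∀ j, ‖a j‖ ^ 2 = if j ∈ O then (1 : ℝ) else 0 := by
      intro j
      by_cases hj : j ∈ O <;> simp [a, hj, hu]
    rw [Finset.sum_congr rfl (fun j _ => h1 j), Finset.sum_ite_mem, Finset.univ_inter]
    simp
  -- parity
  have hparO : O.card % 2 = n % 2 := by
    have h1 : ∑ j : Fin (d + 1), Finset.card ({i | f i = j} : Finset (Fin n)) = n := by
      have := Finset.card_eq_sum_card_fiberwise (s := (Finset.univ : Finset (Fin n)))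
        (t := (Finset.univ : Finset (Fin (d + 1)))) (f := f) (fun _ _ => Finset.mem_coe.2 (Finset.mem_univ _))
      rw [Finset.card_univ, Fintype.card_fin] at this
      exact this.symm
    have h2 := Finset.odd_sum_iff_odd_card_odd (s := (Finset.univ : Finset (Fin (d + 1))))
      (fun j => Finset.card ({i | f i = j} : Finset (Fin n)))
    rw [h1] at h2
    rw [Nat.odd_iff, Nat.odd_iff] at h2
    have h3 : (Finset.card ({x | Odd (Finset.card ({i | f i = x} : Finset (Fin n)))} :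
      Finset (Fin (d + 1)))) = O.card := rfl
    rw [h3] at h2
    omega
  have hcard : O.card ≤ d + 1 := by
    have := Finset.card_le_univ O
    rwa [Fintype.card_fin] at this
  by_cases hfull : O.card = d + 1
  · -- all directions are odd
    have hOu : O = Finset.univ := Finset.eq_univ_of_card _ (by rw [hfull, Fintype.card_fin])
    have ha : a = u := by
      funext j
      simp [a, hOu]
    obtain ⟨c, hc, hc0⟩ := exists_dep u
    obtain ⟨e, he⟩ := exists_signs u c hc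
    obtain ⟨η, h1, h2⟩ := hmain e
    refine ⟨η, h1, ?_⟩
    rw [h2, ha]
    refine he.trans ?_
    have hpos : 0 < ∑ i, c i ^ 2 := by
      obtain ⟨j, hj⟩ : ∃ j, c j ≠ 0 := by
        by_contra h
        push Not at h
        exact hc (funext h)
      exact Finset.sum_pos' (fun i _ => sq_nonneg _) ⟨j, Finset.mem_univ j, by positivity⟩
    rw [hc0]
    simp only [hu, one_pow, mul_one, Finset.sum_const, Finset.card_univ, Fintype.card_fin,
      nsmul_eq_mul, norm_zero]
    have : 2 * ((0 : ℝ) ^ 2 - ∑ i, c i ^ 2) / ∑ i, c i ^ 2 = -2 := by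
      field_simp
      ring
    rw [this]
    push_cast
    linarith
  · have hle : O.card + 1 ≤ d := by omega
    have h1 : (Pi.single 0 1 : Fin (d + 1) → ℝ) ≠ 0 := by
      intro h
      have := congrFun h 0
      simp at this
    obtain ⟨e, he⟩ := exists_signs a (Pi.single 0 1) h1
    obtain ⟨η, h2, h3⟩ := hmain e
    refine ⟨η, h2, ?_⟩
    rw [h3]
    refine he.trans ?_
    have h4 : ∑ i, (Pi.single 0 1 : Fin (d + 1) → ℝ) i • a i = a 0 := by
      rw [Finset.sum_eq_single 0]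
      · simp
      · intro j _ hj
        simp [Pi.single_eq_of_ne hj]
      · simp
    have h5 : ∑ i, (Pi.single 0 1 : Fin (d + 1) → ℝ) i ^ 2 * ‖a i‖ ^ 2 = ‖a 0‖ ^ 2 := by
      rw [Finset.sum_eq_single 0]
      · simp
      · intro j _ hj
        simp [Pi.single_eq_of_ne hj]
      · simp
    rw [h4, h5, hnorm, sub_self, mul_zero, zero_div, add_zero]
    have : ((O.card + 1 : ℕ) : ℝ) ≤ (d : ℝ) := by exact_mod_cast hle
    push_cast at this
    linarith

theorem result :
    -- (1) `d + 1` unit vectors in dimension `d`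
    (∀ (d : ℕ) (v : Fin (d + 1) → EuclideanSpace ℝ (Fin d)), (∀ i, ‖v i‖ = 1) →
      ∃ η : Fin (d + 1) → ℝ, (∀ i, η i = 1 ∨ η i = -1) ∧ ‖∑ i, η i • v i‖ ≤ √((d : ℝ) - 1)) ∧
    -- (2) all `n` of parity opposite to `d`, at most `d + 1` directions
    (∀ (d n : ℕ) (v : Fin n → EuclideanSpace ℝ (Fin d)), n % 2 ≠ d % 2 → (∀ i, ‖v i‖ = 1) →
      (∃ u : Fin (d + 1) → EuclideanSpace ℝ (Fin d), (∀ j, ‖u j‖ = 1) ∧
        ∀ i, ∃ j, v i = u j ∨ v i = -u j) →
      ∃ η : Fin n → ℝ, (∀ i, η i = 1 ∨ η i = -1) ∧ ‖∑ i, η i • v i‖ ≤ √((d : ℝ) - 1)) ∧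
    -- (3) all `n`: a part of the vectors has a signed sum `w = -∑ x_j v_j` with
    -- `(1 - ‖w‖²) (1 - ‖x‖²) ≤ 0`, and `d` vectors `v_j` remain
    (∀ (d n : ℕ) (v : Fin n → EuclideanSpace ℝ (Fin d)), (∀ i, ‖v i‖ = 1) →
      ∀ (S : Finset (Fin n)) (ε x : Fin n → ℝ), Sᶜ.card ≤ d → (∀ i, ε i = 1 ∨ ε i = -1) →
        ∑ i ∈ S, ε i • v i = -∑ j ∈ Sᶜ, x j • v j →
        (1 - ‖∑ i ∈ S, ε i • v i‖ ^ 2) * (1 - ∑ j ∈ Sᶜ, x j ^ 2) ≤ 0 →
        ∃ η : Fin n → ℝ, (∀ i, η i = 1 ∨ η i = -1) ∧ (∀ i ∈ S, η i = ε i) ∧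
          ‖∑ i, η i • v i‖ ≤ √((d : ℝ) - 1)) ∧
    -- (4) a bound for all families
    (∀ (d n : ℕ) (v : Fin n → EuclideanSpace ℝ (Fin d)), (∀ i, ‖v i‖ = 1) →
      ∀ c : Fin n → ℝ, c ≠ 0 → ∃ η : Fin n → ℝ, (∀ i, η i = 1 ∨ η i = -1) ∧
        ‖∑ i, η i • v i‖ ^ 2 ≤ (n : ℝ) - 2 + 2 * ‖∑ i, c i • v i‖ ^ 2 / ∑ i, c i ^ 2) := by
  refine ⟨?_, ?_, ?_, ?_⟩
  · intro d v hv
    obtain ⟨η, h1, h2⟩ := few (n := d + 1) (by omega) v hv id (fun _ => 1) (fun _ => Or.inl rfl)
    refine ⟨η, h1, Real.le_sqrt_of_sq_le ?_⟩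
    simpa using h2
  · rintro d n v hpar hv ⟨u, hu, huv⟩
    choose f hf using huv
    have h : ∀ i, ∃ κ : ℝ, (κ = 1 ∨ κ = -1) ∧ v i = κ • u (f i) := by
      intro i
      rcases hf i with h | h
      · exact ⟨1, Or.inl rfl, by rw [one_smul]; exact h⟩
      · exact ⟨-1, Or.inr rfl, by rw [neg_one_smul]; exact h⟩
    choose κ hκ hκv using h
    obtain ⟨η, h1, h2⟩ := few hpar u hu f κ hκ
    refine ⟨η, h1, Real.le_sqrt_of_sq_le ?_⟩
    simp only [hκv]
    exact h2
  · intro d n v hv S ε x hS hε hw hle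
    obtain ⟨η, h1, h2, h3⟩ := exists_signs_offset v hv S ε x hε hw
    refine ⟨η, h1, h2, Real.le_sqrt_of_sq_le (h3.trans ?_)⟩
    have hX : 0 ≤ ∑ j ∈ Sᶜ, x j ^ 2 := Finset.sum_nonneg (fun i _ => sq_nonneg _)
    have h4 : (1 - ‖∑ i ∈ S, ε i • v i‖ ^ 2) * (1 - ∑ j ∈ Sᶜ, x j ^ 2) /
        (1 + ∑ j ∈ Sᶜ, x j ^ 2) ≤ 0 := div_nonpos_of_nonpos_of_nonneg hle (by positivity)
    have h5 : (Sᶜ.card : ℝ) ≤ (d : ℝ) := by exact_mod_cast hS
    linarith
  · intro d n v hv c hc
    exact exists_signs_unit v hv c hc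

end Pool.Agent.Results.MP_1be6c9_co.FewDirections
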